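import Pool.Agent.Helper85_ABCT.Spec

/-!
# SGEN (MP_a17fcb_ag): specialization at generic points
-/

open MvPolynomial Topology

namespace PosGeom.H44

open PosGeom.H85

/-- elements of the function field are quotients of forms -/
theorem exists_quot {ι : Type} (V : PVar ι) (f : V.K) :
    ∃ (n : ℕ) (F G : MvPolynomial ι ℂ), F.IsHomogeneous n ∧ G.IsHomogeneous n ∧
      aeval V.gen G ≠ 0 ∧ (f : V.Frac) * aeval V.gen G = aeval V.gen F := by
  obtain ⟨f, hf⟩ := f
  show ∃ (n : ℕ) (F G : MvPolynomial ι ℂ), F.IsHomogeneous n ∧ G.IsHomogeneous n ∧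
      aeval V.gen G ≠ 0 ∧ f * aeval V.gen G = aeval V.gen F
  unfold PVar.K at hf
  induction hf using IntermediateField.adjoin_induction with
  | mem x hx =>
    obtain ⟨i, j, rfl⟩ := hx
    by_cases hj : V.gen j = 0
    · refine ⟨0, 0, 1, isHomogeneous_zero _ _ _, isHomogeneous_one _ _, ?_, ?_⟩
      · rw [map_one]; exact one_ne_zero
      · rw [map_one, map_zero, hj, div_zero, zero_mul]
    · refine ⟨1, X i, X j, isHomogeneous_X _ _, isHomogeneous_X _ _, ?_, ?_⟩
      · rwa [aeval_X]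
      · rw [aeval_X, aeval_X, div_mul_cancel₀ _ hj]
  | algebraMap c =>
    refine ⟨0, C c, 1, isHomogeneous_C _ _, isHomogeneous_one _ _, ?_, ?_⟩
    · rw [map_one]; exact one_ne_zero
    · rw [map_one, mul_one, aeval_C]
  | add x y _ _ hx hy =>
    obtain ⟨n, F, G, hF, hG, hG0, h1⟩ := hx
    obtain ⟨n', F', G', hF', hG', hG0', h1'⟩ := hy
    refine ⟨n + n', F * G' + F' * G, G * G', (hF.mul hG').add ?_, hG.mul hG', ?_, ?_⟩
    · rw [add_comm n n']; exact hF'.mul hG
    · rw [map_mul]; exact mul_ne_zero hG0 hG0'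
    · rw [map_add, map_mul, map_mul, map_mul, ← h1, ← h1']
      ring
  | inv x _ hx =>
    obtain ⟨n, F, G, hF, hG, hG0, h1⟩ := hx
    by_cases h0 : x = 0
    · refine ⟨0, 0, 1, isHomogeneous_zero _ _ _, isHomogeneous_one _ _, ?_, ?_⟩
      · rw [map_one]; exact one_ne_zero
      · rw [map_one, map_zero, h0, inv_zero, zero_mul]
    · refine ⟨n, G, F, hG, hF, ?_, ?_⟩
      · rw [← h1]; exact mul_ne_zero h0 hG0
      · rw [← h1, ← mul_assoc, inv_mul_cancel₀ h0, one_mul]
  | mul x y _ _ hx hy =>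
    obtain ⟨n, F, G, hF, hG, hG0, h1⟩ := hx
    obtain ⟨n', F', G', hF', hG', hG0', h1'⟩ := hy
    refine ⟨n + n', F * F', G * G', hF.mul hF', hG.mul hG', ?_, ?_⟩
    · rw [map_mul]; exact mul_ne_zero hG0 hG0'
    · rw [map_mul, map_mul, ← h1, ← h1']
      ring

theorem vanish {ι : Type} (V : PVar ι) {L : Type} [Field L] [Algebra ℂ L] (ξ : ι → L)
    (hξ : ∀ (F : MvPolynomial ι ℂ) (n : ℕ), F.IsHomogeneous n → (aeval ξ F = 0 ↔ F ∈ V.I)) :
    ∀ F ∈ V.I, aeval ξ F = 0 := by
  intro F hF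
  rw [← sum_homogeneousComponent F, map_sum]
  refine Finset.sum_eq_zero fun n _ => ?_
  exact (hξ _ n (homogeneousComponent_isHomogeneous n F)).2 (V.homog F hF n)

theorem sgen (hS : SpecStmt) : SgenStmt := by
  intro ι _ V
  refine ⟨aeval_gen_eq_zero V, ?_, ?_⟩
  · intro f
    obtain ⟨n, F, G, hF, hG, hG0, h1⟩ := exists_quot V f
    exact ⟨n, F, G, hF, hG, hG0, h1, h1⟩
  · intro L _ _ ξ hξ
    have hv := vanish V ξ hξ
    have hne : ∃ i, ξ i ≠ 0 := by
      obtain ⟨i, hi⟩ := V.rel
      refine ⟨i, fun h => hi ?_⟩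
      rw [← hξ (X i) 1 (isHomogeneous_X _ _), aeval_X, h]
    obtain ⟨s1, s2, s3, s4, s5, s6, s7, s8⟩ := hS ι V L ξ hv hne
    have hex : ∀ f : V.K, ∃ a, V.SpecTo ξ f a := by
      intro f
      obtain ⟨n, F, G, hF, hG, hG0, h1⟩ := exists_quot V f
      have hG1 : aeval ξ G ≠ 0 := by
        intro h
        rw [hξ G n hG] at h
        exact hG0 ((aeval_gen_eq_zero V G).2 h)
      exact ⟨aeval ξ F / aeval ξ G, n, F, G, hF, hG, hG1, h1, div_mul_cancel₀ _ hG1⟩
    choose e he using hex
    have heq : ∀ f a, V.SpecTo ξ f a ↔ e f = a := fun f a =>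
      ⟨fun h => s1 f _ _ (he f) h, fun h => h ▸ he f⟩
    let E : V.K →ₐ[ℂ] L :=
      { toFun := e
        map_one' := by
          rw [← heq]
          have := s2 1
          rwa [map_one, map_one] at this
        map_mul' := fun f g => by
          rw [← heq]
          exact s4 f g _ _ (he f) (he g)
        map_zero' := by
          rw [← heq]
          have := s2 0
          rwa [map_zero, map_zero] at this
        map_add' := fun f g => by
          rw [← heq]
          exact s3 f g _ _ (he f) (he g)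
        commutes' := fun c => by
          rw [← heq]
          exact s2 c }
    refine ⟨E, heq, le_antisymm ?_ ?_⟩
    · rintro a ⟨f, rfl⟩
      exact s8 f _ (he f)
    · rw [IntermediateField.adjoin_le_iff]
      rintro a ⟨i, j, rfl⟩
      by_cases hj : ξ j = 0
      · rw [hj, div_zero]
        exact E.fieldRange.zero_mem
      · obtain ⟨f, -, hf⟩ := s7 1 (X i) (X j) (isHomogeneous_X _ _) (isHomogeneous_X _ _)
          (by rwa [aeval_X])
        rw [aeval_X, aeval_X, heq] at hf
        exact ⟨f, hf⟩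

end PosGeom.H44
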