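import Pool.Agent.Helper85_ABCT.Spec

/-!
# SREAL (MP_a17fcb_ag): real specialization
-/

open MvPolynomial Topology

namespace PosGeom.H44

open PosGeom.H85

theorem aeval_real {ι : Type} (x : ι → ℝ) (F : MvPolynomial ι ℝ) :
    aeval (fun i => ((x i : ℝ) : ℂ)) (map Complex.ofRealHom F) = ((eval x F : ℝ) : ℂ) := by
  induction F using MvPolynomial.induction_on with
  | C a => simp
  | add p q hp hq => rw [map_add, map_add, hp, hq, map_add, Complex.ofReal_add]
  | mul_X p i hp =>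
    rw [map_mul, map_mul, hp, map_X, aeval_X, map_mul, eval_X, Complex.ofReal_mul]

theorem eval_smul_hom {ι : Type} {F : MvPolynomial ι ℝ} {n : ℕ}
    (hF : F.IsHomogeneous n) (c : ℝ) (x : ι → ℝ) : eval (c • x) F = c ^ n * eval x F := by
  rw [eval_eq, eval_eq, Finset.mul_sum]
  refine Finset.sum_congr rfl fun μ hμ => ?_
  have hm : ∑ i ∈ μ.support, μ i = n := by
    have := hF (mem_support_iff.mp hμ)
    rw [Finsupp.weight_apply, Finsupp.sum] at this
    simpa using this
  have h2 : (∏ i ∈ μ.support, ((c • x) i) ^ μ i) = c ^ n * ∏ i ∈ μ.support, x i ^ μ i := by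
    rw [← hm, ← Finset.prod_pow_eq_pow_sum, ← Finset.prod_mul_distrib]
    exact Finset.prod_congr rfl fun i _ => by rw [Pi.smul_apply, smul_eq_mul, mul_pow]
  rw [h2]
  ring

theorem sreal (hS : SpecStmt) : SrealStmt := by
  intro ι _ V x hx
  obtain ⟨hx0, hxI⟩ := hx
  have hne : ∃ i, ((x i : ℝ) : ℂ) ≠ 0 := by
    by_contra hcon
    push Not at hcon
    apply hx0
    funext i
    exact Complex.ofReal_eq_zero.1 (hcon i)
  obtain ⟨s1, -⟩ := hS ι V ℂ (fun i => ((x i : ℝ) : ℂ)) hxI hne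
  have h1 : ∀ f a, V.RVal x f a → V.Val x f (a : ℂ) := by
    rintro f a ⟨n, F, G, hF, hG, hG0, e1, e2⟩
    refine ⟨n, map Complex.ofRealHom F, map Complex.ofRealHom G, hF.map _, hG.map _, ?_, e1, ?_⟩
    · rw [aeval_real]
      exact_mod_cast hG0
    · rw [aeval_real, aeval_real, ← e2, Complex.ofReal_mul]
  refine ⟨h1, ?_, ?_, ?_, ?_, ?_, ?_, ?_⟩
  · intro f a b ha hb
    exact_mod_cast s1 f _ _ (h1 f a ha) (h1 f b hb)
  · intro c
    refine ⟨0, C c, 1, isHomogeneous_C _ _, isHomogeneous_one _ _, ?_, ?_, ?_⟩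
    · rw [map_one]; exact one_ne_zero
    · rw [map_one, map_one, mul_one, map_C, aeval_C]
      rfl
    · rw [map_one, mul_one, eval_C]
  · rintro f g a b ⟨n, F, G, hF, hG, hG0, h1, h2⟩ ⟨n', F', G', hF', hG', hG0', h1', h2'⟩
    refine ⟨n + n', F * G' + F' * G, G * G', (hF.mul hG').add ?_, hG.mul hG', ?_, ?_, ?_⟩
    · rw [add_comm n n']; exact hF'.mul hG
    · rw [map_mul]; exact mul_ne_zero hG0 hG0'
    · rw [map_add, map_mul, map_mul, map_mul, map_add, map_mul, map_mul, map_mul, ← h1, ← h1']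
      push_cast
      ring
    · rw [map_add, map_mul, map_mul, map_mul, ← h2, ← h2']
      ring
  · rintro f g a b ⟨n, F, G, hF, hG, hG0, h1, h2⟩ ⟨n', F', G', hF', hG', hG0', h1', h2'⟩
    refine ⟨n + n', F * F', G * G', hF.mul hF', hG.mul hG', ?_, ?_, ?_⟩
    · rw [map_mul]; exact mul_ne_zero hG0 hG0'
    · rw [map_mul, map_mul, map_mul, map_mul, ← h1, ← h1']
      push_cast
      ring
    · rw [map_mul, map_mul, ← h2, ← h2']
      ring
  · rintro f a ⟨n, F, G, hF, hG, hG0, e1, e2⟩ ha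
    have hF0 : eval x F ≠ 0 := by
      rw [← e2]; exact mul_ne_zero ha hG0
    have hFg : aeval V.gen (map Complex.ofRealHom F) ≠ 0 := by
      intro h
      have h3 := hxI _ ((aeval_gen_eq_zero V _).1 h)
      rw [aeval_real] at h3
      exact hF0 (by exact_mod_cast h3)
    have hf : (f : V.Frac) ≠ 0 := by
      intro h
      rw [h, zero_mul] at e1
      exact hFg e1.symm
    refine ⟨n, G, F, hG, hF, hF0, ?_, ?_⟩
    · rw [← e1]
      push_cast
      rw [← mul_assoc, inv_mul_cancel₀ hf, one_mul]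
    · rw [← e2, ← mul_assoc, inv_mul_cancel₀ ha, one_mul]
  · rintro f a ⟨n, F, G, hF, hG, hG0, e1, e2⟩ c hc
    refine ⟨n, F, G, hF, hG, ?_, e1, ?_⟩
    · rw [eval_smul_hom hG]
      exact mul_ne_zero (pow_ne_zero _ hc) hG0
    · rw [eval_smul_hom hG, eval_smul_hom hF, ← e2]
      ring
  · rintro f a ⟨n, F, G, hF, hG, hG0, e1, e2⟩ ε hε
    have cF : Continuous fun y : ι → ℝ => eval y F := MvPolynomial.continuous_eval F
    have cG : Continuous fun y : ι → ℝ => eval y G := MvPolynomial.continuous_eval G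
    have hq : ContinuousAt (fun y : ι → ℝ => eval y F / eval y G) x :=
      cF.continuousAt.div cG.continuousAt hG0
    have ha : eval x F / eval x G = a := by
      rw [← e2, mul_div_cancel_right₀ _ hG0]
    have h3 : ∀ᶠ y in 𝓝 x, |eval y F / eval y G - a| < ε := by
      have := Metric.tendsto_nhds.1 hq ε hε
      simp only [Real.dist_eq, ha] at this
      exact this
    have h4 : ∀ᶠ y in 𝓝 x, eval y G ≠ 0 := cG.continuousAt.eventually_ne hG0
    filter_upwards [h3, h4] with y hy3 hy4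
    exact ⟨eval y F / eval y G, ⟨n, F, G, hF, hG, hy4, e1, div_mul_cancel₀ _ hy4⟩, hy3⟩

end PosGeom.H44
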